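import Mathlib

set_option autoImplicit false

/-!
# SL-13: large transitive subgroups of `SL_2`
-/

namespace Pool.Agent.Helper54.SL.Grp

section GroupThy
variable {𝔽 : Type} [Field 𝔽]

/-- upper unitriangular -/
def uu (b : 𝔽) : Matrix.SpecialLinearGroup (Fin 2) 𝔽 :=
  ⟨!![1, b; 0, 1], by simp [Matrix.det_fin_two]⟩

/-- lower unitriangular -/
def ll (t : 𝔽) : Matrix.SpecialLinearGroup (Fin 2) 𝔽 :=
  ⟨!![1, 0; t, 1], by simp [Matrix.det_fin_two]⟩

/-- the Weyl element -/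
def ww : Matrix.SpecialLinearGroup (Fin 2) 𝔽 :=
  ⟨!![0, -1; 1, 0], by simp [Matrix.det_fin_two]⟩

theorem sl_ext {g h : Matrix.SpecialLinearGroup (Fin 2) 𝔽} (h00 : g.1 0 0 = h.1 0 0)
    (h01 : g.1 0 1 = h.1 0 1) (h10 : g.1 1 0 = h.1 1 0) (h11 : g.1 1 1 = h.1 1 1) : g = h := by
  apply Subtype.ext
  ext i j
  fin_cases i <;> fin_cases j <;> assumption

theorem mul00 (g h : Matrix.SpecialLinearGroup (Fin 2) 𝔽) :
    (g * h).1 0 0 = g.1 0 0 * h.1 0 0 + g.1 0 1 * h.1 1 0 := by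
  simp [Matrix.SpecialLinearGroup.coe_mul, Matrix.mul_apply, Fin.sum_univ_two]

theorem mul01 (g h : Matrix.SpecialLinearGroup (Fin 2) 𝔽) :
    (g * h).1 0 1 = g.1 0 0 * h.1 0 1 + g.1 0 1 * h.1 1 1 := by
  simp [Matrix.SpecialLinearGroup.coe_mul, Matrix.mul_apply, Fin.sum_univ_two]

theorem mul10 (g h : Matrix.SpecialLinearGroup (Fin 2) 𝔽) :
    (g * h).1 1 0 = g.1 1 0 * h.1 0 0 + g.1 1 1 * h.1 1 0 := by
  simp [Matrix.SpecialLinearGroup.coe_mul, Matrix.mul_apply, Fin.sum_univ_two]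

theorem mul11 (g h : Matrix.SpecialLinearGroup (Fin 2) 𝔽) :
    (g * h).1 1 1 = g.1 1 0 * h.1 0 1 + g.1 1 1 * h.1 1 1 := by
  simp [Matrix.SpecialLinearGroup.coe_mul, Matrix.mul_apply, Fin.sum_univ_two]

theorem det_eq (g : Matrix.SpecialLinearGroup (Fin 2) 𝔽) :
    g.1 0 0 * g.1 1 1 - g.1 0 1 * g.1 1 0 = 1 := by
  have := g.2
  rw [Matrix.det_fin_two] at this
  exact this

theorem inv00 (g : Matrix.SpecialLinearGroup (Fin 2) 𝔽) : (g⁻¹).1 0 0 = g.1 1 1 := by
  rw [Matrix.SpecialLinearGroup.coe_inv, Matrix.adjugate_fin_two]; rfl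

theorem inv01 (g : Matrix.SpecialLinearGroup (Fin 2) 𝔽) : (g⁻¹).1 0 1 = - g.1 0 1 := by
  rw [Matrix.SpecialLinearGroup.coe_inv, Matrix.adjugate_fin_two]; rfl

theorem inv10 (g : Matrix.SpecialLinearGroup (Fin 2) 𝔽) : (g⁻¹).1 1 0 = - g.1 1 0 := by
  rw [Matrix.SpecialLinearGroup.coe_inv, Matrix.adjugate_fin_two]; rfl

theorem inv11 (g : Matrix.SpecialLinearGroup (Fin 2) 𝔽) : (g⁻¹).1 1 1 = g.1 0 0 := by
  rw [Matrix.SpecialLinearGroup.coe_inv, Matrix.adjugate_fin_two]; rfl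

/-- The Borel subgroup. -/
def Bor : Subgroup (Matrix.SpecialLinearGroup (Fin 2) 𝔽) where
  carrier := {g | g.1 1 0 = 0}
  mul_mem' := by
    intro g h hg hh
    rw [Set.mem_ofPred_eq] at hg hh ⊢
    rw [mul10, hg, hh]; ring
  one_mem' := by simp
  inv_mem' := by
    intro g hg
    rw [Set.mem_ofPred_eq] at hg ⊢
    rw [inv10, hg]; ring

theorem mem_Bor {g : Matrix.SpecialLinearGroup (Fin 2) 𝔽} : g ∈ (Bor : Subgroup _) ↔ g.1 1 0 = 0 :=
  Iff.rfl

/-- representatives of the cosets -/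
def repB : Option 𝔽 → Matrix.SpecialLinearGroup (Fin 2) 𝔽
  | none => ww
  | some t => ll t

theorem index_Bor [Fintype 𝔽] : (Bor : Subgroup (Matrix.SpecialLinearGroup (Fin 2) 𝔽)).index ≤
    Fintype.card 𝔽 + 1 := by
  have hsurj : Function.Surjective (fun x : Option 𝔽 =>
      ((repB x : Matrix.SpecialLinearGroup (Fin 2) 𝔽) :
        Matrix.SpecialLinearGroup (Fin 2) 𝔽 ⧸ (Bor : Subgroup _))) := by
    intro c
    obtain ⟨g, rfl⟩ := QuotientGroup.mk_surjective c
    by_cases h : g.1 0 0 = 0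
    · refine ⟨none, ?_⟩
      apply QuotientGroup.eq.2
      rw [mem_Bor, mul10, inv10, inv11]
      simp [repB, ww, h]
    · refine ⟨some (g.1 1 0 / g.1 0 0), ?_⟩
      apply QuotientGroup.eq.2
      rw [mem_Bor, mul10, inv10, inv11]
      simp [repB, ll]
      field_simp
      ring
  have h1 := Nat.card_le_card_of_surjective _ hsurj
  rw [Nat.card_eq_fintype_card (α := Option 𝔽), Fintype.card_option] at h1
  exact h1

/-- the diagonal character of the Borel part of `H` -/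
noncomputable def chi (H : Subgroup (Matrix.SpecialLinearGroup (Fin 2) 𝔽)) :
    ↥(H ⊓ Bor) →* 𝔽ˣ where
  toFun g := ⟨g.1.1 0 0, g.1.1 1 1, by
    have h1 := det_eq g.1
    have h2 : g.1.1 1 0 = 0 := g.2.2
    rw [h2] at h1; linear_combination h1, by
    have h1 := det_eq g.1
    have h2 : g.1.1 1 0 = 0 := g.2.2
    rw [h2] at h1; linear_combination h1⟩
  map_one' := by
    apply Units.ext
    simp
  map_mul' := by
    intro g h
    apply Units.ext
    show (g.1 * h.1).1 0 0 = g.1.1 0 0 * h.1.1 0 0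
    have h2 : h.1.1 1 0 = 0 := h.2.2
    rw [mul00, h2]; ring

/-- the additive group of the entries of the upper unitriangular elements of `H` -/
def VV (H : Subgroup (Matrix.SpecialLinearGroup (Fin 2) 𝔽)) : AddSubgroup 𝔽 where
  carrier := {b | uu b ∈ H}
  zero_mem' := by
    have : (uu 0 : Matrix.SpecialLinearGroup (Fin 2) 𝔽) = 1 := by
      apply sl_ext <;> simp [uu]
    rw [Set.mem_ofPred_eq, this]
    exact H.one_mem
  add_mem' := by
    intro a b ha hb
    rw [Set.mem_ofPred_eq] at ha hb ⊢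
    have : (uu (a + b) : Matrix.SpecialLinearGroup (Fin 2) 𝔽) = uu a * uu b := by
      apply sl_ext
      · rw [mul00]; simp [uu]
      · rw [mul01]; simp [uu]; ring
      · rw [mul10]; simp [uu]
      · rw [mul11]; simp [uu]
    rw [this]
    exact H.mul_mem ha hb
  neg_mem' := by
    intro a ha
    rw [Set.mem_ofPred_eq] at ha ⊢
    have : (uu (-a) : Matrix.SpecialLinearGroup (Fin 2) 𝔽) = (uu a)⁻¹ := by
      apply sl_ext
      · rw [inv00]; simp [uu]
      · rw [inv01]; simp [uu]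
      · rw [inv10]; simp [uu]
      · rw [inv11]; simp [uu]
    rw [this]
    exact H.inv_mem ha

theorem mem_VV {H : Subgroup (Matrix.SpecialLinearGroup (Fin 2) 𝔽)} {b : 𝔽} :
    b ∈ VV H ↔ uu b ∈ H := Iff.rfl

theorem card_ker_le [Fintype 𝔽] (H : Subgroup (Matrix.SpecialLinearGroup (Fin 2) 𝔽)) :
    Nat.card (chi H).ker ≤ Nat.card (VV H) := by
  have key : ∀ g : (chi H).ker, g.1.1 = uu (g.1.1.1 0 1) := by
    intro g
    have h1 : g.1.1.1 0 0 = 1 := congrArg Units.val g.2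
    have h2 : g.1.1.1 1 0 = 0 := g.1.2.2
    have h3 := det_eq g.1.1
    rw [h1, h2] at h3
    apply sl_ext
    · rw [h1]; simp [uu]
    · simp [uu]
    · rw [h2]; simp [uu]
    · simp only [uu]
      simp
      linear_combination h3
  apply Nat.card_le_card_of_injective (fun g => (⟨g.1.1.1 0 1, by
    rw [mem_VV, ← key g]; exact g.1.2.1⟩ : VV H))
  intro g g' h
  have h1 : g.1.1.1 0 1 = g'.1.1.1 0 1 := congrArg Subtype.val h
  apply Subtype.ext
  apply Subtype.ext
  rw [key g, key g', h1]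

/-- multiplication by squares of the diagonal entries preserves `VV` -/
theorem sq_smul_mem (H : Subgroup (Matrix.SpecialLinearGroup (Fin 2) 𝔽)) {x : 𝔽ˣ}
    (hx : x ∈ (chi H).range) {b : 𝔽} (hb : b ∈ VV H) : (x : 𝔽) ^ 2 * b ∈ VV H := by
  obtain ⟨g, rfl⟩ := hx
  rw [mem_VV] at hb ⊢
  have h2 : g.1.1 1 0 = 0 := g.2.2
  have h3 := det_eq g.1
  have e : (uu (((chi H g : 𝔽ˣ) : 𝔽) ^ 2 * b) : Matrix.SpecialLinearGroup (Fin 2) 𝔽) =
      g.1 * uu b * g.1⁻¹ := by
    have e0 : ((chi H g : 𝔽ˣ) : 𝔽) = g.1.1 0 0 := rfl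
    rw [e0]
    apply sl_ext
    · rw [mul00, mul00, mul01, inv00, inv10, h2]
      simp [uu]
      linear_combination -h3 - (g.1.1 0 1) * h2
    · rw [mul01, mul00, mul01, inv01, inv11]
      simp [uu]
      ring
    · rw [mul10, mul10, mul11, inv00, inv10, h2]
      simp [uu]
    · rw [mul11, mul10, mul11, inv01, inv11, h2]
      simp [uu]
      linear_combination -h3 - (g.1.1 0 1) * h2
  rw [e]
  exact H.mul_mem (H.mul_mem g.2.1 hb) (H.inv_mem g.2.1)

/-- the subring generated by the squares of the diagonal entries -/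
def RR (H : Subgroup (Matrix.SpecialLinearGroup (Fin 2) 𝔽)) : Subring 𝔽 :=
  Subring.closure {y | ∃ x ∈ (chi H).range, y = (x : 𝔽) ^ 2}

theorem RR_smul_mem (H : Subgroup (Matrix.SpecialLinearGroup (Fin 2) 𝔽)) {r : 𝔽}
    (hr : r ∈ RR H) : ∀ b ∈ VV H, r * b ∈ VV H := by
  unfold RR at hr
  induction hr using Subring.closure_induction with
  | mem y hy =>
    obtain ⟨x, hx, rfl⟩ := hy
    intro b hb
    exact sq_smul_mem H hx hb
  | zero => intro b _; rw [zero_mul]; exact (VV H).zero_mem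
  | one => intro b hb; rw [one_mul]; exact hb
  | add x y _ _ hx hy => intro b hb; rw [add_mul]; exact (VV H).add_mem (hx b hb) (hy b hb)
  | neg x _ hx => intro b hb; rw [neg_mul]; exact (VV H).neg_mem (hx b hb)
  | mul x y _ _ hx hy => intro b hb; rw [mul_assoc]; exact hx _ (hy b hb)

theorem RR_inv_mem [Fintype 𝔽] (H : Subgroup (Matrix.SpecialLinearGroup (Fin 2) 𝔽)) {r : 𝔽}
    (hr : r ∈ RR H) (hr0 : r ≠ 0) : r⁻¹ ∈ RR H := by
  have h1 : r ^ (Fintype.card 𝔽 - 1) = 1 := FiniteField.pow_card_sub_one_eq_one r hr0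
  have h2 : 2 ≤ Fintype.card 𝔽 := Fintype.one_lt_card
  have h3 : r⁻¹ = r ^ (Fintype.card 𝔽 - 2) := by
    have h4 : Fintype.card 𝔽 - 1 = (Fintype.card 𝔽 - 2) + 1 := by omega
    rw [h4, pow_succ] at h1
    exact (eq_inv_of_mul_eq_one_left h1).symm
  rw [h3]
  exact (RR H).pow_mem hr _

theorem card_RR_VV [Fintype 𝔽] (H : Subgroup (Matrix.SpecialLinearGroup (Fin 2) 𝔽))
    (hV : VV H ≠ ⊤) : Nat.card (RR H) * Nat.card (VV H) ≤ Fintype.card 𝔽 := by
  obtain ⟨f, hf⟩ : ∃ f, f ∉ VV H := by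
    by_contra hcon
    push Not at hcon
    exact hV ((AddSubgroup.eq_top_iff' _).2 hcon)
  rw [← Nat.card_prod, ← Nat.card_eq_fintype_card]
  apply Nat.card_le_card_of_injective (fun q : (RR H) × (VV H) => (q.1 : 𝔽) * f + q.2)
  rintro ⟨⟨r, hr⟩, ⟨v, hv⟩⟩ ⟨⟨r', hr'⟩, ⟨v', hv'⟩⟩ h
  dsimp only at h
  have h1 : (r - r') * f = v' - v := by linear_combination h
  have h2 : (r - r') * f ∈ VV H := by
    rw [h1]; exact (VV H).sub_mem hv' hv
  have h3 : r = r' := by
    by_contra hne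
    have h4 : r - r' ≠ 0 := sub_ne_zero.2 hne
    have h5 := RR_smul_mem H (RR_inv_mem H ((RR H).sub_mem hr hr') h4) _ h2
    rw [← mul_assoc, inv_mul_cancel₀ h4, one_mul] at h5
    exact hf h5
  subst h3
  have h4 : v = v' := by linear_combination h
  subst h4
  rfl

theorem card_range_le [Fintype 𝔽] (H : Subgroup (Matrix.SpecialLinearGroup (Fin 2) 𝔽)) :
    Nat.card (chi H).range ≤ 2 * (Nat.card (RR H) - 1) := by
  classical
  -- the squaring map on the range
  set D := (chi H).range with hD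
  have hRfin : Finite (RR H) := inferInstance
  have hcardR : Nat.card {r : RR H // r ≠ 0} = Nat.card (RR H) - 1 := by
    have := Fintype.ofFinite (RR H)
    rw [Nat.card_eq_fintype_card, Nat.card_eq_fintype_card, Fintype.card_subtype_compl,
      Fintype.card_subtype_eq]
  rw [← hcardR]
  set φ : D → {r : RR H // r ≠ 0} := fun x => ⟨⟨((x.1 : 𝔽ˣ) : 𝔽) ^ 2,
    Subring.subset_closure ⟨x.1, x.2, rfl⟩⟩, by
      intro h
      have h1 : ((x.1 : 𝔽ˣ) : 𝔽) ^ 2 = 0 := congrArg Subtype.val h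
      exact x.1.ne_zero (pow_eq_zero_iff (two_ne_zero) |>.1 h1)⟩ with hφ
  have h1 := Fintype.ofFinite D
  have h2 := Fintype.ofFinite {r : RR H // r ≠ 0}
  rw [Nat.card_eq_fintype_card, Nat.card_eq_fintype_card]
  have h3 : (Finset.univ : Finset D).card ≤
      2 * (Finset.univ : Finset {r : RR H // r ≠ 0}).card := by
    apply Finset.card_le_mul_card_image_of_maps_to (f := φ) (fun a _ => Finset.mem_univ _)
    intro r _
    by_cases hne : ((Finset.univ : Finset D).filter (fun a => φ a = r)).Nonempty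
    · obtain ⟨a, ha⟩ := hne
      have ha' : φ a = r := (Finset.mem_filter.1 ha).2
      have hsub : ((Finset.univ : Finset D).filter (fun b => φ b = r)).map
          ⟨fun x : D => ((x.1 : 𝔽ˣ) : 𝔽), fun x y h => Subtype.ext (Units.ext h)⟩ ⊆
          {((a.1 : 𝔽ˣ) : 𝔽), -((a.1 : 𝔽ˣ) : 𝔽)} := by
        intro z hz
        rw [Finset.mem_map] at hz
        obtain ⟨b, hb, rfl⟩ := hz
        have hb' : φ b = φ a := by rw [ha']; exact (Finset.mem_filter.1 hb).2
        have h5 : ((b.1 : 𝔽ˣ) : 𝔽) ^ 2 = ((a.1 : 𝔽ˣ) : 𝔽) ^ 2 :=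
          congrArg (fun r : {r : RR H // r ≠ 0} => (r.1 : 𝔽)) hb'
        rw [Finset.mem_insert, Finset.mem_singleton]
        exact sq_eq_sq_iff_eq_or_eq_neg.1 h5
      have h6 := Finset.card_le_card hsub
      rw [Finset.card_map] at h6
      exact h6.trans Finset.card_le_two
    · rw [Finset.not_nonempty_iff_eq_empty] at hne
      rw [hne]; simp
  rw [Finset.card_univ, Finset.card_univ] at h3
  exact h3

theorem mem_of_unip {H : Subgroup (Matrix.SpecialLinearGroup (Fin 2) 𝔽)}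
    (hU : ∀ b, uu b ∈ H) (hL : ∀ t, ll t ∈ H) (g : Matrix.SpecialLinearGroup (Fin 2) 𝔽) :
    g ∈ H := by
  have key : ∀ g : Matrix.SpecialLinearGroup (Fin 2) 𝔽, g.1 1 0 ≠ 0 → g ∈ H := by
    intro g hc
    have h3 := det_eq g
    have e : g = uu ((g.1 0 0 - 1) / g.1 1 0) * ll (g.1 1 0) * uu ((g.1 1 1 - 1) / g.1 1 0) := by
      apply sl_ext
      · rw [mul00, mul00, mul01]
        simp [uu, ll]
        field_simp
        ring
      · rw [mul01, mul00, mul01]
        simp [uu, ll]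
        field_simp
        linear_combination -h3
      · rw [mul10, mul10, mul11]
        simp [uu, ll]
      · rw [mul11, mul10, mul11]
        simp [uu, ll]
        field_simp
        ring
    rw [e]
    exact H.mul_mem (H.mul_mem (hU _) (hL _)) (hU _)
  by_cases hc : g.1 1 0 = 0
  · have h3 := det_eq g
    rw [hc] at h3
    have ha : g.1 0 0 ≠ 0 := by
      intro h
      rw [h] at h3
      simp at h3
    have h4 : (ll 1 * g).1 1 0 ≠ 0 := by
      rw [mul10, hc]
      simp [ll, ha]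
    have h5 := key _ h4
    have h6 : g = (ll 1)⁻¹ * (ll 1 * g) := by group
    rw [h6]
    exact H.mul_mem (H.inv_mem (hL 1)) h5
  · exact key g hc

end GroupThy

end Pool.Agent.Helper54.SL.Grp

namespace Pool.Agent.Helper54.SL

open Grp

/-- SL-13 -/
theorem sl2_top {p n : ℕ} [Fact p.Prime] (hn : 0 < n) {𝔽 : Type} [Field 𝔽] [Fintype 𝔽]
    (h𝔽 : Fintype.card 𝔽 = p ^ n) (H : Subgroup (Matrix.SpecialLinearGroup (Fin 2) 𝔽))
    (htrans : ∀ a b : 𝔽, (a ≠ 0 ∨ b ≠ 0) →
      ∃ g ∈ H, ∃ c : 𝔽, g.1 0 0 * a + g.1 0 1 * b = c ∧ g.1 1 0 * a + g.1 1 1 * b = 0)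
    (β : 𝔽) (hβ : β ≠ 0) (u : Matrix.SpecialLinearGroup (Fin 2) 𝔽) (huH : u ∈ H)
    (hu : u.1 = !![1, β; 0, 1]) (hcard : 2 * ((p ^ n) ^ 2 - 1) ≤ Nat.card H) : H = ⊤ := by
  have hq2 : 2 ≤ Fintype.card 𝔽 := Fintype.one_lt_card
  rw [← h𝔽] at hcard
  set q := Fintype.card 𝔽 with hq
  -- the cardinality of the Borel part
  have h1 : Nat.card H ≤ Nat.card ↥(H ⊓ Bor) * (q + 1) := by
    have e1 : Nat.card ↥(H ⊓ Bor) * (H ⊓ Bor).relIndex H = Nat.card H := by
      have e10 := Subgroup.relIndex_mul_relIndex ⊥ (H ⊓ Bor) H bot_le inf_le_left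
      rw [Subgroup.relIndex_bot_left, Subgroup.relIndex_bot_left] at e10
      exact e10
    have e2 : (H ⊓ Bor).relIndex H ≤ q + 1 := by
      rw [inf_comm, Subgroup.inf_relIndex_right]
      refine le_trans (Subgroup.relIndex_le_of_le_right (K := H) (L := ⊤) le_top ?_) ?_
      · rw [Subgroup.relIndex_top_right]
        exact Subgroup.index_ne_zero_of_finite
      · rw [Subgroup.relIndex_top_right]
        exact index_Bor
    rw [← e1]
    exact Nat.mul_le_mul_left _ e2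
  have h2 : Nat.card ↥(H ⊓ Bor) = Nat.card (chi H).ker * Nat.card (chi H).range := by
    rw [← Subgroup.index_ker, Subgroup.card_mul_index]
  have hk := card_ker_le H
  have hV : VV H = ⊤ := by
    by_contra hV
    have h3 := card_RR_VV H hV
    have h4 := card_range_le H
    have h5 : 2 ≤ Nat.card (VV H) := by
      have huu : uu β ∈ H := by
        have : uu β = u := Subtype.ext hu.symm
        rw [this]; exact huH
      have hnt : Nontrivial (VV H) :=
        ⟨⟨⟨β, huu⟩, 0, fun h => hβ (congrArg Subtype.val h)⟩⟩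
      exact Finite.one_lt_card
    have h6 : 2 * (q - 1) ≤ Nat.card ↥(H ⊓ Bor) := by
      have h7 : 2 * (q ^ 2 - 1) ≤ Nat.card ↥(H ⊓ Bor) * (q + 1) := hcard.trans h1
      have h8 : q ^ 2 - 1 = (q - 1) * (q + 1) := by
        have := Nat.sq_sub_sq q 1
        rw [one_pow] at this
        rw [this, mul_comm]
      rw [h8, ← mul_assoc] at h7
      exact Nat.le_of_mul_le_mul_right h7 (by omega)
    have h7 : Nat.card ↥(H ⊓ Bor) ≤ Nat.card (VV H) * (2 * (Nat.card (RR H) - 1)) := by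
      rw [h2]
      exact Nat.mul_le_mul hk h4
    have h8 : Nat.card (VV H) * (2 * (Nat.card (RR H) - 1)) =
        2 * (Nat.card (RR H) * Nat.card (VV H)) - 2 * Nat.card (VV H) := by
      rw [← Nat.mul_sub, ← mul_assoc, mul_comm (Nat.card (VV H)) 2, mul_assoc]
      congr 1
      rw [Nat.mul_sub, mul_one, mul_comm]
    omega
  have hU : ∀ b, uu b ∈ H := by
    intro b
    have : b ∈ VV H := by rw [hV]; exact AddSubgroup.mem_top b
    exact this
  have hL : ∀ t, ll t ∈ H := by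
    intro t
    obtain ⟨g, hg, c, h3, h4⟩ := htrans 0 1 (Or.inr one_ne_zero)
    rw [mul_zero, mul_one, zero_add] at h3 h4
    have h5 := det_eq g
    rw [h4, mul_zero, zero_sub] at h5
    have hb : g.1 0 1 ≠ 0 := by
      intro h; rw [h] at h5; simp at h5
    -- ll t = g⁻¹ * uu s * g
    have e : ll t = g⁻¹ * uu (-t * (g.1 0 1) ^ 2) * g := by
      apply sl_ext
      · rw [mul00, mul00, mul01, inv00, inv01]
        simp [uu, ll, h4]
        linear_combination -h5
      · rw [mul01, mul00, mul01, inv00, inv01]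
        simp [uu, ll, h4]
      · rw [mul10, mul10, mul11, inv10, inv11]
        simp [uu, ll]
        linear_combination t * h5 * (g.1 0 1 * g.1 1 0 - 1)
      · rw [mul11, mul10, mul11, inv10, inv11]
        simp [uu, ll, h4]
        linear_combination -h5
    rw [e]
    exact H.mul_mem (H.mul_mem (H.inv_mem hg) (hU _)) hg
  rw [Subgroup.eq_top_iff']
  exact mem_of_unip hU hL

end Pool.Agent.Helper54.SL
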